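import Pool.Agent.Lib.MP_10e784_agB7.T6

/-!
# MP_10e784_ag: rational points on curves in `Y × E_1 × .. × E_g`, double covers of elliptic curves
-/

set_option autoImplicit false

namespace Pool.Agent.Results.MP_10e784_ag.BiellipticCurves

open MWS BLS BI7

/-- The elliptic curves are `y² = x³ + A x + B` with integers `A`, `B`, `4 A³ + 27 B² ≠ 0`; `O` is the point at infinity and
`basK K d P` are the values at the point `P` over `K` of the basis `1, x, .., x^d, y, x y, .., x^(d - 2) y` of `L(2 d O)`.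
`VK.Pt A B` is the group `E(ℚ)`; `VK.HasCM A B` says that the curve has complex multiplication.

THE FAMILY.  `B` is a FIXED product of `h` elliptic curves and `Y` any FIXED closed subset of `B × ℙ^M` (so if `h = 0` any
projective variety, else any one with a map to `B`), given by `w` sections with the coefficients `b`; `r` is such
that all fibres of `Y` over `B` have dimension at most `r - 1` (`Fib`).  `E_1, .., E_g` run through all elliptic curves
with `|A_l| ≤ H²`, `|B_l| ≤ H³`, where `h + g ≥ 1`.  `F_1, .., F_s` are sections of `O(2 d_{j1} O) ⊠ .. ⊠ O(ν_j)` on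
`B × E_1 × .. × E_g × ℙ^M`, their `N` coefficients run through the integers of absolute value at most `H` (`Box`), so that
there are about `H^(N + 5 g)` curves `X`: `X` is given in `Y × E_1 × .. × E_g` by `F_j = 0` for `j` not in `R` and by
the cyclic covers `γ_j t^(ex j) = F_j` for `j` in `R`, and `s + 2 = h + g + r + #R`, that is `X` is a curve (its expected
dimension is at most one).

THE TWISTS.  The factors `γ_j` run through all the integers `γ_j ≠ 0` for which the product of the prime numbers which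
divide one of them is at most `T(H)` (`Fac R (T H)`); in particular through all those with the product of the `|γ_j|` at
most `T(H)`, and, as `T(H)` tends to infinity, for large `H` through any finitely generated group of rational numbers (up
to `ex j`-th powers), for instance the `S`-units.  `Pnt K (Fac R T) ..`: `X` has a point over `K` for some of these
factors; `Pnt K {1} ..`: for all `γ_j = 1`.

HYPOTHESES.  If `h + g ≥ 2` there is no condition on the degrees.  If `h + g = 1`, let `m ≥ 1`; then some `F_j` has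
`ν_j ≥ ν0`, `ν0` depending only on `m` and `Y` (no condition if `M = 0`), and `j` is not in `R` or the degree `ex j` of the
cover is not prime to `m`; or `Y = B × ℙ^M`, `R` is empty, `ν_j ≥ 1` and `ν_1 + .. + ν_s ≥ M + 1`.

THE THEOREM.  (1) For all `H ≥ 1` all but `C H^(N + 5 g) / T(H)` of the curves `X` have NO rational point, for all the
factors `γ_j` at the same time; `C` does not depend on `H` and `T(H)` is
* `exp((log H)^c)` if the fixed curves have complex multiplication, `B` of ANY rank (no condition if `h = 0`), with `c > 0`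
  depending only on `B` and `m` (take `m = 1` if `h + g ≥ 2`);
* `exp(c' (log log H)²)` if `g = 0`, `m = 2` and `B = E^h` for an elliptic curve `E` with `E(ℚ)` of rank at most one, with
  `c' > 0` depending only on `Y`.
(2) THE HASSE PRINCIPLE.  If the `X` are the double covers `w² = F` of an elliptic curve, fixed (`h = 1`) or varying
(`g = 1`), `F` in `L(2 d O)` with `d ≥ 2`, then a positive proportion of them, at least `η H^(N + 5 g)` for `H ≥ H0`, has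
points over `ℝ` and over `ℚ_p` for all primes `p`, but neither they nor their twists `γ w² = F`, `rad γ ≤ T(H)`, have a
rational point.

For instance `h = 1`, `g = M = w = 0`, `r = s = 1`, `R = {0}`, `ex = 2`: for EVERY elliptic curve over `ℚ` of rank at most one
or with complex multiplication `100 %` of its double covers `w² = φ`, `φ` in `L(2 d O)`, and all their twists
`γ w² = φ` with `|γ| ≤ T(H)` have no rational point, for all `d ≥ 1`: see `fixed_curve` below for this case spelled out, and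
`all_curves` for the case `g = 1`, `h = 0`. -/
theorem result :
    ∀ (h : ℕ) (B : Fin h → ℤ × ℤ), (∀ l, 4 * (B l).1 ^ 3 + 27 * (B l).2 ^ 2 ≠ 0) → ∀ m : ℕ, 1 ≤ m → ∃ c : ℝ, 0 < c ∧
      ∀ (r M w : ℕ) (δ : Fin w → ℕ) (d' : Fin w → Fin h → ℕ) (b : IxS M δ d' → ℤ), Fib B b r →
      ∃ (c' : ℝ) (ν0 : ℕ), 0 < c' ∧ ∀ (g s : ℕ) (ν : Fin s → ℕ) (d : Fin s → Fin (h + g) → ℕ)
      (R : Finset (Fin s)) (ex : Fin s → ℕ) (T : ℕ → ℝ),
      ((∀ l, VK.HasCM ((B l).1 : ℚ) ((B l).2 : ℚ)) ∧ (∀ H : ℕ, T H = Real.exp ((Real.log H) ^ c)) ∨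
        g = 0 ∧ m = 2 ∧ (∃ E : ℤ × ℤ, Module.finrank ℤ (VK.Pt (E.1 : ℚ) (E.2 : ℚ)) ≤ 1 ∧ ∀ l, B l = E) ∧
          (∀ H : ℕ, T H = Real.exp (c' * (Real.log (Real.log H)) ^ 2))) →
      1 ≤ h + g → s + 2 = h + g + r + R.card → (∀ j ∈ R, 1 ≤ ex j ∧ ex j ∣ ν j ∧ ∀ l, ex j ∣ 2 * d j l) →
      (2 ≤ h + g ∨ (∃ j, (ν0 ≤ ν j ∨ M = 0) ∧ (j ∈ R → ¬ (ex j).Coprime m)) ∨
        w = 0 ∧ r = M + 1 ∧ R = ∅ ∧ (∀ j, 1 ≤ ν j) ∧ M + 1 ≤ ∑ j, ν j) →
      (∃ C : ℝ, ∀ H : ℕ, 1 ≤ H →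
        (Nat.card {z : (Fin g → ℤ × ℤ) × (IxS M ν d → ℤ) // Box H z ∧ Pnt ℚ (Fac R (T H)) R ex B b z.1 z.2} : ℝ) ≤
          C * (H : ℝ) ^ (Fintype.card (IxS M ν d) + 5 * g) / T H) ∧
      (h + g = 1 → M = 0 → w = 0 → s = 1 → (∀ j, j ∈ R ∧ ex j = 2 ∧ ν j = 0 ∧ ∀ l, 2 ≤ d j l) →
        ∃ (η : ℝ) (H0 : ℕ), 0 < η ∧ ∀ H : ℕ, H0 ≤ H → η * (H : ℝ) ^ (Fintype.card (IxS M ν d) + 5 * g) ≤
          (Nat.card {z : (Fin g → ℤ × ℤ) × (IxS M ν d → ℤ) // Box H z ∧ (Pnt ℝ {1} R ex B b z.1 z.2 ∧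
            ∀ (p : ℕ) [Fact p.Prime], Pnt ℚ_[p] {1} R ex B b z.1 z.2) ∧
              ¬ Pnt ℚ (Fac R (T H)) R ex B b z.1 z.2} : ℝ)) :=
  fun h B hB m hm => main h B hB m hm

/-- `result` for the double covers of a fixed elliptic curve `E` of rank at most one or with complex multiplication;
`Tw E T a`: the double cover `γ t² = φ`, `a` the coefficients of `φ`, has a rational point for some integer `γ ≠ 0` with
`rad γ ≤ T` -/
theorem fixed_curve (E : ℤ × ℤ) (hE : 4 * E.1 ^ 3 + 27 * E.2 ^ 2 ≠ 0)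
    (h : Module.finrank ℤ (VK.Pt (E.1 : ℚ) (E.2 : ℚ)) ≤ 1 ∨ VK.HasCM (E.1 : ℚ) (E.2 : ℚ)) :
    ∃ c : ℝ, 0 < c ∧ (∀ d : ℕ, 1 ≤ d → ∃ C : ℝ, ∀ H : ℕ, 1 ≤ H →
      (Nat.card {a : Ix d → ℤ // (∀ k, |a k| ≤ (H : ℤ)) ∧ Tw E (Real.exp (c * (Real.log (Real.log H)) ^ 2)) a} : ℝ) ≤
        C * (H : ℝ) ^ (2 * d) * Real.exp (-(c * (Real.log (Real.log H)) ^ 2))) ∧
      ∀ d : ℕ, 2 ≤ d → ∃ (η : ℝ) (H0 : ℕ), 0 < η ∧ ∀ H : ℕ, H0 ≤ H → η * (H : ℝ) ^ (2 * d) ≤
        (Nat.card {a : Ix d → ℤ // (∀ k, |a k| ≤ (H : ℤ)) ∧ (Sol ℝ E.1 E.2 d a ∧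
          ∀ (p : ℕ) [Fact p.Prime], Sol ℚ_[p] E.1 E.2 d a) ∧
            ¬ Tw E (Real.exp (c * (Real.log (Real.log H)) ^ 2)) a} : ℝ) :=
  fix_all E hE h

/-- `result` for the double covers of all elliptic curves -/
theorem all_curves :
    ∃ c : ℝ, 0 < c ∧ (∀ d : ℕ, 1 ≤ d → ∃ C : ℝ, ∀ H : ℕ, 1 ≤ H →
      (Nat.card {a : (ℤ × ℤ) × (Ix d → ℤ) // (4 * a.1.1 ^ 3 + 27 * a.1.2 ^ 2 ≠ 0 ∧ |a.1.1| ≤ (H : ℤ) ^ 2 ∧
        |a.1.2| ≤ (H : ℤ) ^ 3 ∧ ∀ k, |a.2 k| ≤ (H : ℤ)) ∧ Tw a.1 (Real.exp ((Real.log H) ^ c)) a.2} : ℝ) ≤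
        C * (H : ℝ) ^ (2 * d + 5) * Real.exp (-(Real.log H) ^ c)) ∧
      ∀ d : ℕ, 2 ≤ d → ∃ (η : ℝ) (H0 : ℕ), 0 < η ∧ ∀ H : ℕ, H0 ≤ H → η * (H : ℝ) ^ (2 * d + 5) ≤
        (Nat.card {a : (ℤ × ℤ) × (Ix d → ℤ) // (4 * a.1.1 ^ 3 + 27 * a.1.2 ^ 2 ≠ 0 ∧ |a.1.1| ≤ (H : ℤ) ^ 2 ∧
          |a.1.2| ≤ (H : ℤ) ^ 3 ∧ ∀ k, |a.2 k| ≤ (H : ℤ)) ∧ (Sol ℝ a.1.1 a.1.2 d a.2 ∧
          ∀ (p : ℕ) [Fact p.Prime], Sol ℚ_[p] a.1.1 a.1.2 d a.2) ∧
            ¬ Tw a.1 (Real.exp ((Real.log H) ^ c)) a.2} : ℝ) :=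
  var_all

end Pool.Agent.Results.MP_10e784_ag.BiellipticCurves
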