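import Pool.Agent.Lib.MP_10e784_agHT.Main
import Pool.Agent.Lib.MP_10e784_agHE.H
import Pool.Agent.Lib.MP_10e784_agF.GT

/-!
# MP_10e784_ag: rational points on hyperelliptic curves of every genus `≥ 2`, 100 per cent have none
-/

set_option autoImplicit false

namespace Pool.Agent.Results.MP_10e784_ag.HyperellipticCurves

open Polynomial

/-- The coefficients `a` are those of two binary quadratic forms `q_i = a_(i,0) z² + a_(i,1) x z + a_(i,2) x²` and of a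
binary form `F = ∑ a_i x^i z^(m - i)` of degree `m`: the smooth projective model of the curve `y² = q₀ q₁ F` has a
point over the field `K`. -/
def HasPoint (K : Type) [Field K] {m : ℕ} (a : (Fin 2 × Fin 3 → ℤ) × (Fin (m + 1) → ℤ)) : Prop :=
  ∃ x z y : K, (x ≠ 0 ∨ z ≠ 0) ∧
    y ^ 2 = (∏ i : Fin 2, ∑ j : Fin 3, (a.1 (i, j) : K) * x ^ (j : ℕ) * z ^ (2 - (j : ℕ))) *
      ∑ i : Fin (m + 1), (a.2 i : K) * x ^ (i : ℕ) * z ^ (m - (i : ℕ))

/-- The polynomial `q₀ q₁ F` with `z = 1`. -/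
noncomputable def poly {m : ℕ} (a : (Fin 2 × Fin 3 → ℤ) × (Fin (m + 1) → ℤ)) : ℚ[X] :=
  (∏ i : Fin 2, ∑ j : Fin 3, C (a.1 (i, j) : ℚ) * X ^ (j : ℕ)) * ∑ i : Fin (m + 1), C (a.2 i : ℚ) * X ^ (i : ℕ)

private theorem qe_eq {K : Type} [Field K] (v : Fin 3 → ℤ) (x z : K) :
    ∑ j : Fin 3, (v j : K) * x ^ (j : ℕ) * z ^ (2 - (j : ℕ)) = HY.qe (fun j => ((v j : ℤ) : K)) x z := by
  simp only [Fin.sum_univ_three, HY.qe, Fin.val_zero, Fin.val_one, Fin.val_two, pow_zero, pow_one, Nat.sub_zero,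
    Nat.sub_self, mul_one, show 2 - 1 = 1 from rfl]
  ring

private theorem hasPoint_iff (K : Type) [Field K] {m : ℕ} (a : (Fin 2 × Fin 3 → ℤ) × (Fin (m + 1) → ℤ)) :
    HasPoint K a ↔ HE.SolK2 K (fun i j => a.1 (i, j)) a.2 := by
  unfold HasPoint HE.SolK2 HY.fe
  simp only [Fin.prod_univ_two, qe_eq (fun j => a.1 (_, j))]

private theorem poly_eq {m : ℕ} (a : (Fin 2 × Fin 3 → ℤ) × (Fin (m + 1) → ℤ)) :
    poly a = HY.pol (fun j => ((a.1 (0, j) : ℤ) : ℚ)) * HY.pol (fun j => ((a.1 (1, j) : ℤ) : ℚ)) *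
      HY.pol (fun i => ((a.2 i : ℤ) : ℚ)) := by
  simp only [poly, HY.pol, Fin.prod_univ_two, C_mul_X_pow_eq_monomial]

private theorem fin_box {m k H : ℕ} :
    Finite {a : (Fin 2 × Fin 3 → ℤ) × (Fin (m + 1) → ℤ) // (∀ i, |a.1 i| ≤ (H : ℤ)) ∧ ∀ i, |a.2 i| ≤ (H : ℤ) ^ k} := by
  refine Set.Finite.to_subtype (((Set.finite_Icc (fun _ : Fin 2 × Fin 3 => -(H : ℤ)) fun _ => (H : ℤ)).prod
    (Set.finite_Icc (fun _ : Fin (m + 1) => -(H : ℤ) ^ k) fun _ => (H : ℤ) ^ k)).subset fun a ha => ?_)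
  exact ⟨⟨fun i => (abs_le.1 (ha.1 i)).1, fun i => (abs_le.1 (ha.1 i)).2⟩,
    ⟨fun i => (abs_le.1 (ha.2 i)).1, fun i => (abs_le.1 (ha.2 i)).2⟩⟩

/-- monotonicity of the numbers of elements of the box -/
private theorem card_mono {m k : ℕ} (H : ℕ) (P R : (Fin 2 × Fin 3 → ℤ) × (Fin (m + 1) → ℤ) → Prop)
    (h : ∀ z, P z → R z) :
    Nat.card {z : (Fin 2 × Fin 3 → ℤ) × (Fin (m + 1) → ℤ) // (∀ i, |z.1 i| ≤ (H : ℤ)) ∧ (∀ i, |z.2 i| ≤ (H : ℤ) ^ k) ∧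
      P z} ≤
    Nat.card {z : (Fin 2 × Fin 3 → ℤ) × (Fin (m + 1) → ℤ) // (∀ i, |z.1 i| ≤ (H : ℤ)) ∧ (∀ i, |z.2 i| ≤ (H : ℤ) ^ k) ∧
      R z} := by
  have hf : Finite {z : (Fin 2 × Fin 3 → ℤ) × (Fin (m + 1) → ℤ) //
      (∀ i, |z.1 i| ≤ (H : ℤ)) ∧ (∀ i, |z.2 i| ≤ (H : ℤ) ^ k) ∧ R z} := by
    have := @fin_box m k H
    exact Finite.of_injective (fun z => (⟨z.1, z.2.1, z.2.2.1⟩ :
      {a : (Fin 2 × Fin 3 → ℤ) × (Fin (m + 1) → ℤ) // (∀ i, |a.1 i| ≤ (H : ℤ)) ∧ ∀ i, |a.2 i| ≤ (H : ℤ) ^ k}))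
      fun z w hzw => Subtype.ext (by
        have h2 := congrArg Subtype.val hzw
        exact h2)
  exact Nat.card_le_card_of_injective (fun a => (⟨a.1, a.2.1, a.2.2.1, h a.1 a.2.2.2⟩ :
    {z : (Fin 2 × Fin 3 → ℤ) × (Fin (m + 1) → ℤ) //
      (∀ i, |z.1 i| ≤ (H : ℤ)) ∧ (∀ i, |z.2 i| ≤ (H : ℤ) ^ k) ∧ R z}))
    fun z w hzw => Subtype.ext (by
      have h2 := congrArg Subtype.val hzw
      exact h2)

private theorem hasPoint_iff2 (K : Type) [Field K] {m : ℕ} (a : (Fin 2 × Fin 3 → ℤ) × (Fin (m + 1) → ℤ)) :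
    HasPoint K a ↔ FQQ.GPt K a := Iff.rfl

private theorem poly_eq2 {m : ℕ} (a : (Fin 2 × Fin 3 → ℤ) × (Fin (m + 1) → ℤ)) : poly a = FQQ.GPol a := rfl

/-- an estimate for all large `H` holds for all `H ≥ 3`, with another constant -/
private theorem from_three {n : ℕ} (f : ℕ → ℕ) (h : ∃ (C : ℝ) (H1 : ℕ), ∀ H : ℕ, H1 ≤ H →
    (f H : ℝ) ≤ C * (H : ℝ) ^ n * (Real.log (Real.log H))⁻¹) :
    ∃ C : ℝ, ∀ H : ℕ, 3 ≤ H → (f H : ℝ) ≤ C * (H : ℝ) ^ n * (Real.log (Real.log H))⁻¹ := by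
  obtain ⟨C, H1, h⟩ := h
  obtain ⟨S, hS⟩ : ∃ S : ℝ, S = ∑ H ∈ Finset.range H1, (f H : ℝ) := ⟨_, rfl⟩
  obtain ⟨L, hL⟩ : ∃ L : ℝ, L = Real.log (Real.log (H1 : ℝ)) := ⟨_, rfl⟩
  have hS0 : 0 ≤ S := hS ▸ Finset.sum_nonneg fun _ _ => Nat.cast_nonneg _
  refine ⟨max C 0 + S * |L|, fun H hH => ?_⟩
  have h3 : (3 : ℝ) ≤ H := by exact_mod_cast hH
  have hl1 : 1 < Real.log H := by
    rw [Real.lt_log_iff_exp_lt (by linarith)]
    linarith [Real.exp_one_lt_d9]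
  have hl2 : 0 < Real.log (Real.log H) := Real.log_pos hl1
  have hpow : (1 : ℝ) ≤ (H : ℝ) ^ n := one_le_pow₀ (by linarith)
  have hpos : 0 ≤ (H : ℝ) ^ n * (Real.log (Real.log H))⁻¹ := by positivity
  rcases le_or_gt H1 H with h1 | h1
  · refine (h H h1).trans ?_
    rw [mul_assoc, mul_assoc]
    refine mul_le_mul_of_nonneg_right ?_ hpos
    have : 0 ≤ S * |L| := mul_nonneg hS0 (abs_nonneg _)
    linarith [le_max_left C 0]
  · have hf : (f H : ℝ) ≤ S := by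
      rw [hS]
      exact Finset.single_le_sum (f := fun H => (f H : ℝ)) (fun _ _ => Nat.cast_nonneg _) (Finset.mem_range.2 h1)
    have hLL : Real.log (Real.log H) ≤ |L| := by
      refine le_trans ?_ (le_abs_self L)
      rw [hL]
      refine Real.log_le_log (by linarith) (Real.log_le_log (by linarith) ?_)
      exact_mod_cast h1.le
    have h2 : S ≤ S * |L| * ((H : ℝ) ^ n * (Real.log (Real.log H))⁻¹) := by
      have h4 : 1 ≤ |L| * (Real.log (Real.log H))⁻¹ := by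
        rw [← div_eq_mul_inv, one_le_div hl2]
        exact hLL
      have h5 : 1 ≤ |L| * (Real.log (Real.log H))⁻¹ * (H : ℝ) ^ n := one_le_mul_of_one_le_of_one_le h4 hpow
      calc S ≤ S * (|L| * (Real.log (Real.log H))⁻¹ * (H : ℝ) ^ n) := le_mul_of_one_le_right hS0 h5
        _ = _ := by ring
    calc (f H : ℝ) ≤ S := hf
      _ ≤ S * |L| * ((H : ℝ) ^ n * (Real.log (Real.log H))⁻¹) := h2
      _ ≤ (max C 0 + S * |L|) * ((H : ℝ) ^ n * (Real.log (Real.log H))⁻¹) :=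
          mul_le_mul_of_nonneg_right (by linarith [le_max_right C 0]) hpos
      _ = _ := by ring

/-- Let `m ≥ 2` be even, `2 k ≥ m + 8`, and `k ≥ 11` if `m = 2`. To a triple `a = (q₀, q₁, F)` of two binary quadratic
forms and a binary form `F` of degree `m`, with integral coefficients, corresponds the hyperelliptic curve
`y² = q₀ q₁ F`, of genus `(m + 2) / 2 ≥ 2` if `q₀ q₁ F` is squarefree. There is an absolute constant `c > 0` with the
following properties.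
(1) ALMOST ALL HAVE NO RATIONAL POINT. For a constant `C`, depending on `m` and `k` only, and for all `H ≥ 3` at most
`C H^(6 + k (m + 1)) E(H)` of the triples `a`, the coefficients of the `q_i` of absolute value at most `H`,
those of `F` of absolute value at most `H^k`, are such that the curve `y² = q₀ q₁ F` has a rational point; here
`E(H) = exp(-(log H)^c)` if `m ≥ 4` (genus at least 3) and `E(H) = 1 / log log H` if `m = 2` (genus 2).
(2) THE HASSE PRINCIPLE. A positive proportion of the triples `a` of (1), at least `η H^(6 + k (m + 1))` with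
`η > 0` for all `H ≥ H0`, are such that `q₀ q₁ F` is squarefree, of degree `m + 4` at `z = 1` (so the curve
`y² = q₀ q₁ F` is smooth of genus `(m + 2) / 2`), that the curve has points over `ℝ` and over `ℚ_p` for all primes `p`,
but that it has no rational point. -/
theorem result :
    ∃ c : ℝ, 0 < c ∧ ∀ m k : ℕ, Even m → 2 ≤ m → m + 8 ≤ 2 * k → (m = 2 → 11 ≤ k) →
      (∃ C : ℝ, ∀ H : ℕ, 3 ≤ H →
        (Nat.card {a : (Fin 2 × Fin 3 → ℤ) × (Fin (m + 1) → ℤ) //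
          (∀ i, |a.1 i| ≤ (H : ℤ)) ∧ (∀ i, |a.2 i| ≤ (H : ℤ) ^ k) ∧ HasPoint ℚ a} : ℝ) ≤
          C * (H : ℝ) ^ (6 + k * (m + 1)) *
            if m = 2 then (Real.log (Real.log H))⁻¹ else Real.exp (-(Real.log H) ^ c)) ∧
      ∃ (η : ℝ) (H0 : ℕ), 0 < η ∧ ∀ H : ℕ, H0 ≤ H → η * (H : ℝ) ^ (6 + k * (m + 1)) ≤
        (Nat.card {a : (Fin 2 × Fin 3 → ℤ) × (Fin (m + 1) → ℤ) //
          (∀ i, |a.1 i| ≤ (H : ℤ)) ∧ (∀ i, |a.2 i| ≤ (H : ℤ) ^ k) ∧
          Squarefree (poly a) ∧ (poly a).natDegree = m + 4 ∧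
          HasPoint ℝ a ∧ (∀ (p : ℕ) [Fact p.Prime], HasPoint ℚ_[p] a) ∧ ¬ HasPoint ℚ a} : ℝ) := by
  obtain ⟨c, hc, h⟩ := HT.stage1
  refine ⟨c, hc, fun m k hm h2 hk hk2 => ?_⟩
  by_cases hm2 : m = 2
  · have h11 := hk2 hm2
    obtain ⟨hA, hB⟩ := FQQ.genus_two (k := k) h2 hm (by omega)
    refine ⟨?_, ?_⟩
    · obtain ⟨C, hC⟩ := from_three _ hA
      refine ⟨C, fun H hH => ?_⟩
      rw [if_pos hm2]
      exact hC H hH
    · exact hB
  · have h4 : 4 ≤ m := by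
      obtain ⟨j, hj⟩ := hm
      omega
    have hA := h m k hm h4 hk
    refine ⟨?_, ?_⟩
    · obtain ⟨C, hC⟩ := hA
      refine ⟨C, fun H hH => ?_⟩
      rw [if_neg hm2]
      exact le_trans (Nat.cast_le.2 (card_mono H _ _ fun z hz =>
        HT.sol_of_rat hm _ _ ((hasPoint_iff ℚ z).1 hz))) (hC H (by omega))
    · obtain ⟨C', hC'⟩ := HT.factOT (c := 1 / 8) (by norm_num) (by norm_num) m k (by omega)
      obtain ⟨η, H0, hη, h1⟩ := HE.hp2 hc hm h4 (by omega : 5 ≤ k)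
        (fun q f hs => HT.sol_of_rat hm q f hs)
        ⟨1 / 8, C', by norm_num, fun H hH => le_trans (Nat.cast_le.2 (card_mono H _ _ fun z hz => Or.inl hz))
          (hC' H hH)⟩ hA
      refine ⟨η, H0, hη, fun H hH => ?_⟩
      have h2 := h1 H hH
      simp only [hasPoint_iff, poly_eq]
      simpa only [and_assoc] using h2

end Pool.Agent.Results.MP_10e784_ag.HyperellipticCurves
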