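import Pool.Agent.Lib.MP_10e784_agQ.QDefs
import Pool.Agent.Lib.MP_10e784_agQ.QFin
import Pool.Agent.Lib.MP_10e784_agDM.Defs
import Pool.Agent.Lib.MP_10e784_agDM.Fin

/-!
# MP_10e784_ag: plane quartics which violate the Hasse principle

(1) `100%` of the plane quartics `A(x, y, z)² = v(x, z) w(y, z)` over `ℚ` have no point over any number field of odd degree, and a positive
proportion of them are smooth and have points over `ℝ` and over all `ℚ_p`.
(2) The smooth plane quartics over `ℚ` with points over `ℝ` and over all `ℚ_p`, but over no number field of odd degree, are Zariski dense in the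
space `ℙ¹⁴` of all plane quartics.
-/

set_option autoImplicit false

namespace Pool.Agent.Results.MP_10e784_ag.PlaneQuartics

open HNQ

theorem result :
    (∀ K : ℕ, 5 ≤ K → ∃ c C : ℝ, 0 < c ∧ ∃ N₀ : ℕ, ∀ N : ℕ, N₀ ≤ N →
      (Nat.card {q : Dt // InBox (N ^ K) N q ∧ HasOddPoint q} : ℝ) ≤
        C * (N : ℝ) ^ (6 * K + 6) / Real.log (Real.log N) ∧
      c * (N : ℝ) ^ (6 * K + 6) ≤
        (Nat.card {q : Dt // InBox (N ^ K) N q ∧ Smooth q ∧ HasPoint ℝ q ∧
          (∀ (p : ℕ) [Fact p.Prime], HasPoint ℚ_[p] q) ∧ ¬ HasOddPoint q} : ℝ)) ∧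
    IsDense :=
  ⟨thm_Q, HND.isDense⟩

end Pool.Agent.Results.MP_10e784_ag.PlaneQuartics
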