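import Pool.Agent.Lib.MP_10e784_agQW.R7
import Pool.Agent.Lib.MP_10e784_agTR.Fin
import Pool.Agent.Lib.MP_10e784_agQV.FinV
import Pool.Agent.Lib.MP_10e784_agQV.O2
import Pool.Agent.Lib.MP_10e784_agQV.QFI

/-!
# MP_10e784_ag: rational points on the quadratic twists of hyperelliptic curves

For every hyperelliptic curve `y² = f(x)` over `ℚ` of genus at least three 100 per cent of the quadratic twists
`D y² = f(x)` which have points everywhere locally have no rational points but the rational Weierstrass points (`y = 0`). This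
contains the conclusion of Granville's theorem under the abc conjecture, for all `f`. In genus two there are conditions.
If `f` has a rational root or odd degree, all twists have points everywhere locally. If (N) fails, `f` has no rational root, all
fields `ℚ[X]/(r)`, `r` an irreducible factor of `f`, contain one quadratic field, and the `D` for which there are points
everywhere locally have density zero.
The proof uses the finiteness of the rational points on curves in the product of two elliptic curves over a number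
field (Faltings), which is proved here too (`MPFA.quartic`).
-/

set_option autoImplicit false

namespace Pool.Agent.Results.MP_10e784_ag.QuadraticTwists

open Polynomial Filter

private theorem even_input (f : ℚ[X]) (hf : Squarefree f) (hdeg : Even f.natDegree) (h6 : 6 ≤ f.natDegree)
    (hroot : ∀ x : ℚ, f.eval x ≠ 0)
    (hn : ∀ q : ℚ[X], Irreducible q → q ∣ f → q.natDegree = 2 →
      ∃ r : ℚ[X], Irreducible r ∧ r ∣ f ∧ ∀ h : ℚ[X], ¬ r ∣ q.comp h) :
      ∃ A δ : ℝ, 0 < δ ∧ (∀ N : ℕ, 2 ≤ N →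
        (Nat.card {D : ℤ // Squarefree D ∧ |D| ≤ (N : ℤ) ∧ ∃ x y : ℚ, (D : ℚ) * y ^ 2 = f.eval x} : ℝ) ≤
          A / Real.log N ^ δ * (Nat.card {D : ℤ // Squarefree D ∧ |D| ≤ (N : ℤ) ∧
            (∃ x y : ℝ, (D : ℝ) * y ^ 2 = aeval x f) ∧
            ∀ (p : ℕ) [Fact p.Prime], ∃ x y : ℚ_[p], (D : ℚ_[p]) * y ^ 2 = aeval x f} : ℝ)) ∧
        ((∃ D : ℤ, Squarefree D ∧ (∃ x y : ℝ, (D : ℝ) * y ^ 2 = aeval x f) ∧
            ∀ (p : ℕ) [Fact p.Prime], ∃ x y : ℚ_[p], (D : ℚ_[p]) * y ^ 2 = aeval x f) →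
          ∃ (c η : ℝ) (N0 : ℕ), 0 < c ∧ η < 1 ∧ ∀ N : ℕ, N0 ≤ N →
          c * N / Real.log N ^ η ≤ (Nat.card {D : ℤ // Squarefree D ∧ |D| ≤ (N : ℤ) ∧
            ((∃ x y : ℝ, (D : ℝ) * y ^ 2 = aeval x f) ∧
              ∀ (p : ℕ) [Fact p.Prime], ∃ x y : ℚ_[p], (D : ℚ_[p]) * y ^ 2 = aeval x f) ∧
            ¬ ∃ x y : ℚ, (D : ℚ) * y ^ 2 = f.eval x} : ℝ)) :=
  EN.cor3 f hf hdeg h6 hroot hn

/-- The twist `D y² = f(x)` has points over `ℝ` and over all `ℚ_p`. (Then it has such points with finite `x`.) -/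
def LocallySoluble (f : ℚ[X]) (D : ℤ) : Prop :=
  (∃ x y : ℝ, (D : ℝ) * y ^ 2 = aeval x f) ∧
    ∀ (p : ℕ) [Fact p.Prime], ∃ x y : ℚ_[p], (D : ℚ_[p]) * y ^ 2 = aeval x f

/-- The twist `D y² = f(x)` has a rational point `(x, y)` with `y ≠ 0`. (The points with `y = 0` are the rational
Weierstrass points. The two points at infinity are rational on the twist with `lc(f) D` a square, and on no other.) -/
def OtherPoint (f : ℚ[X]) (D : ℤ) : Prop := ∃ x y : ℚ, y ≠ 0 ∧ (D : ℚ) * y ^ 2 = f.eval x

/-- The number of the squarefree integers `D`, `|D| ≤ N`, with the property `P`. -/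
noncomputable def count (N : ℕ) (P : ℤ → Prop) : ℝ :=
  Nat.card {D : ℤ // Squarefree D ∧ |D| ≤ (N : ℤ) ∧ P D}

private theorem sum_sq {N : ℕ} (hN : 2 ≤ N) : ∑ d ∈ Finset.Icc 2 N, (1 : ℝ) / ((d : ℝ) * d) ≤ 3 / 4 - 1 / N := by
  induction N, hN using Nat.le_induction with
  | base => norm_num
  | succ n hn ih =>
    rw [Finset.sum_Icc_succ_top (by omega)]
    have hn0 : (0 : ℝ) < n := by exact_mod_cast (by omega : 0 < n)
    have h1 : (1 : ℝ) / (((n + 1 : ℕ) : ℝ) * ((n + 1 : ℕ) : ℝ)) ≤ 1 / n - 1 / ((n + 1 : ℕ) : ℝ) := by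
      push_cast
      rw [div_sub_div _ _ hn0.ne' (by positivity), div_le_div_iff₀ (by positivity) (by positivity)]
      nlinarith
    linarith

private theorem sqf_fin (N : ℕ) (P : ℤ → Prop) : Finite {D : ℤ // Squarefree D ∧ |D| ≤ (N : ℤ) ∧ P D} := by
  apply Set.Finite.to_subtype
  apply (Set.finite_Icc (-(N : ℤ)) N).subset
  rintro D ⟨-, h2, -⟩
  exact abs_le.1 h2

/-- at least one half of `N / 2` squarefree integers -/
private theorem sqf_count (N : ℕ) (P : ℤ → Prop) (hP : ∀ D, Squarefree D → P D) : (N : ℝ) / 4 ≤ count N P := by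
  classical
  have hcard : ((Finset.Icc 1 N).filter fun n => Squarefree n).card ≤
      Nat.card {D : ℤ // Squarefree D ∧ |D| ≤ (N : ℤ) ∧ P D} := by
    have := sqf_fin N P
    rw [← Fintype.card_coe, ← Nat.card_eq_fintype_card]
    refine Nat.card_le_card_of_injective (fun n : {n // n ∈ (Finset.Icc 1 N).filter fun n => Squarefree n} =>
      (⟨(n.1 : ℤ), ?_, ?_, hP _ ?_⟩ : {D : ℤ // Squarefree D ∧ |D| ≤ (N : ℤ) ∧ P D})) ?_
    · exact Int.squarefree_natCast.2 (Finset.mem_filter.1 n.2).2
    · rw [Nat.abs_cast]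
      exact_mod_cast (Finset.mem_Icc.1 (Finset.mem_filter.1 n.2).1).2
    · exact Int.squarefree_natCast.2 (Finset.mem_filter.1 n.2).2
    · intro a b hab
      have h : ((a.1 : ℕ) : ℤ) = ((b.1 : ℕ) : ℤ) := congrArg Subtype.val hab
      exact Subtype.ext (by exact_mod_cast h)
  have hbad : ((((Finset.Icc 1 N).filter fun n => ¬ Squarefree n).card : ℕ) : ℝ) ≤ 3 / 4 * N := by
    rcases lt_or_ge N 2 with h2 | h2
    · have h0 : (Finset.Icc 1 N).filter (fun n => ¬ Squarefree n) = ∅ := by
        refine Finset.filter_eq_empty_iff.2 fun n hn => ?_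
        have h3 := Finset.mem_Icc.1 hn
        have h4 : n = 1 := by omega
        rw [h4, not_not]
        exact squarefree_one
      rw [h0, Finset.card_empty, Nat.cast_zero]
      positivity
    · have hsub : (Finset.Icc 1 N).filter (fun n => ¬ Squarefree n) ⊆
          (Finset.Icc 2 N).biUnion fun d => (Finset.Ioc 0 N).filter fun n => d * d ∣ n := by
        intro n hn
        obtain ⟨h3, h4⟩ := Finset.mem_filter.1 hn
        have h5 := Finset.mem_Icc.1 h3
        rw [Nat.squarefree_iff_prime_squarefree] at h4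
        push Not at h4
        obtain ⟨p, hp, hd⟩ := h4
        have h6 : p * p ≤ n := Nat.le_of_dvd (by omega) hd
        have h7 : p ≤ p * p := Nat.le_mul_self p
        exact Finset.mem_biUnion.2 ⟨p, Finset.mem_Icc.2 ⟨hp.two_le, by omega⟩,
          Finset.mem_filter.2 ⟨Finset.mem_Ioc.2 ⟨by omega, h5.2⟩, hd⟩⟩
      have h8 : ((Finset.Icc 1 N).filter (fun n => ¬ Squarefree n)).card ≤ ∑ d ∈ Finset.Icc 2 N, N / (d * d) := by
        refine (Finset.card_le_card hsub).trans (Finset.card_biUnion_le.trans (Finset.sum_le_sum fun d _ => ?_))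
        rw [Nat.Ioc_filter_dvd_card_eq_div]
      have h9 : ((((Finset.Icc 1 N).filter fun n => ¬ Squarefree n).card : ℕ) : ℝ) ≤
          ∑ d ∈ Finset.Icc 2 N, (N : ℝ) * (1 / ((d : ℝ) * d)) := by
        refine (Nat.cast_le.2 h8).trans ?_
        push_cast
        refine Finset.sum_le_sum fun d _ => ?_
        refine (Nat.cast_div_le).trans (le_of_eq ?_)
        push_cast
        ring
      rw [← Finset.mul_sum] at h9
      have h10 := sum_sq h2
      have h11 : (0 : ℝ) ≤ 1 / N := by positivity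
      have h12 : (N : ℝ) * ∑ d ∈ Finset.Icc 2 N, (1 : ℝ) / ((d : ℝ) * d) ≤ N * (3 / 4) :=
        mul_le_mul_of_nonneg_left (by linarith) (Nat.cast_nonneg _)
      linarith
  have hsum : ((Finset.Icc 1 N).filter fun n => Squarefree n).card +
      ((Finset.Icc 1 N).filter fun n => ¬ Squarefree n).card = N := by
    rw [Finset.card_filter_add_card_filter_not]
    simp
  have hsumR : ((((Finset.Icc 1 N).filter fun n => Squarefree n).card : ℕ) : ℝ) +
      ((((Finset.Icc 1 N).filter fun n => ¬ Squarefree n).card : ℕ) : ℝ) = N := by exact_mod_cast hsum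
  have h13 : ((((Finset.Icc 1 N).filter fun n => Squarefree n).card : ℕ) : ℝ) ≤ count N P := by
    unfold count
    exact_mod_cast hcard
  linarith

private theorem count_congr (N : ℕ) {P Q : ℤ → Prop} (h : ∀ D, P D ↔ Q D) : count N P = count N Q := by
  have : P = Q := funext fun D => propext (h D)
  rw [this]

private theorem count_nonneg (N : ℕ) (P : ℤ → Prop) : 0 ≤ count N P := by
  unfold count
  positivity

private theorem root_loc (f : ℚ[X]) (r : ℚ) (hr : f.eval r = 0) (D : ℤ) : LocallySoluble f D := by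
  have key : ∀ (K : Type) [Field K] [CharZero K], (D : K) * (0 : K) ^ 2 = aeval (r : K) f := by
    intro K _ _
    have h1 : aeval (r : K) f = ((f.eval r : ℚ) : K) := by
      have h2 := Polynomial.aeval_algebraMap_apply K r f
      rw [eq_ratCast] at h2
      rw [h2, eq_ratCast]
      simp
    rw [h1, hr]
    simp
  exact ⟨⟨r, 0, key ℝ⟩, fun p _ => ⟨r, 0, key ℚ_[p]⟩⟩

/-- (K) For any two rational roots of `f` some irreducible factor of odd degree vanishes at neither of them. -/
def CondK (f : ℚ[X]) : Prop :=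
  ∀ r s : ℚ, f.eval r = 0 → f.eval s = 0 → r ≠ s →
    ∃ q : ℚ[X], Irreducible q ∧ q ∣ f ∧ Odd q.natDegree ∧ q.eval r ≠ 0 ∧ q.eval s ≠ 0

/-- (H) For any two rational roots `r`, `s` of `f` and rational `c ≠ 0`, `c (X - r) (X - s)` is no square modulo
`f / ((X - r) (X - s))`. -/
def CondH (f : ℚ[X]) : Prop :=
  ∀ r s : ℚ, f.eval r = 0 → f.eval s = 0 → r ≠ s → ∀ c : ℚ, c ≠ 0 → ∀ h : ℚ[X],
    ¬ f ∣ (X - C r) * (X - C s) * (C c * (X - C r) * (X - C s) - h ^ 2)

/-- (N) For each irreducible factor `q` of degree 2 of `f` there is an irreducible factor `r` such that `q` has no root in the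
field `ℚ[X]/(r)` (`r` divides no `q(h(X))`). -/
def CondN (f : ℚ[X]) : Prop :=
  ∀ q : ℚ[X], Irreducible q → q ∣ f → q.natDegree = 2 →
    ∃ r : ℚ[X], Irreducible r ∧ r ∣ f ∧ ∀ h : ℚ[X], ¬ r ∣ q.comp h

/-- **Almost all everywhere locally soluble quadratic twists have only the rational Weierstrass points as rational points.**
Let `f ∈ ℚ[X]` be squarefree of degree at least 7 (all hyperelliptic curves of genus at least 3), or of degree 6 (genus 2;
every curve of genus 2 has such an equation) with (K), (H), (N). Here `D` runs through the squarefree integers, `|D| ≤ N`.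
(1) For every `ε > 0` and all large `N`: the number of the `D` such that `D y² = f(x)` has a rational point `(x, y)` with `y ≠ 0` is
at most `ε` times the number of the `D` such that `D y² = f(x)` has points over `ℝ` and over every `ℚ_p`.
(2) If `f` has even degree and no rational root and one of these curves has points everywhere locally, then for some `c > 0`,
`η < 1` and all large `N` at least `c N / (log N)^η` of the `D` are such that `D y² = f(x)` violates the Hasse principle.
(3) If `f` has even degree and no rational root and (N) holds, `ε` in (1) can be `A / (log N)^δ` with `A`, `δ > 0`, `N ≥ 2`. -/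
theorem result :
    ∀ f : ℚ[X], Squarefree f → (7 ≤ f.natDegree ∨ (f.natDegree = 6 ∧ CondK f ∧ CondH f ∧ CondN f)) →
      (∀ ε : ℝ, 0 < ε → ∃ N0 : ℕ, ∀ N : ℕ, N0 ≤ N → count N (OtherPoint f) ≤ ε * count N (LocallySoluble f)) ∧
      (Even f.natDegree → (∀ x : ℚ, f.eval x ≠ 0) → (∃ D : ℤ, Squarefree D ∧ LocallySoluble f D) →
        ∃ (c η : ℝ) (N0 : ℕ), 0 < c ∧ η < 1 ∧ ∀ N : ℕ, N0 ≤ N →
          c * N / Real.log N ^ η ≤ count N fun D => LocallySoluble f D ∧ ¬ OtherPoint f D) ∧
      (Even f.natDegree → (∀ x : ℚ, f.eval x ≠ 0) → CondN f → ∃ A δ : ℝ, 0 < δ ∧ ∀ N : ℕ, 2 ≤ N →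
        count N (OtherPoint f) ≤ A / Real.log N ^ δ * count N (LocallySoluble f)) := by
  -- all twists are everywhere locally soluble
  have key2 : ∀ f : ℚ[X], (∀ D : ℤ, Squarefree D → LocallySoluble f D) →
      Tendsto (fun N : ℕ => (Nat.card {D : ℤ // Squarefree D ∧ |D| ≤ (N : ℤ) ∧ ∃ x y : ℚ, y ≠ 0 ∧
        (D : ℚ) * y ^ 2 = f.eval x} : ℝ) / N) atTop (nhds 0) → ∀ ε : ℝ, 0 < ε →
      ∃ N0 : ℕ, ∀ N : ℕ, N0 ≤ N → count N (OtherPoint f) ≤ ε * count N (LocallySoluble f) := by
    intro f hL h1 ε hε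
    have h3 : Tendsto (fun N : ℕ => count N (OtherPoint f) / N) atTop (nhds 0) := h1
    obtain ⟨N0, hN0⟩ := eventually_atTop.1 (h3.eventually_lt_const (show (0 : ℝ) < ε / 4 by positivity))
    refine ⟨max N0 1, fun N hN => ?_⟩
    have h4 := hN0 N ((le_max_left _ _).trans hN)
    have hNpos : (0 : ℝ) < N := by exact_mod_cast (le_max_right N0 1).trans hN
    rw [div_lt_iff₀ hNpos] at h4
    have h5 := mul_le_mul_of_nonneg_left (sqf_count N (LocallySoluble f) hL) hε.le
    linarith
  have hR : ∀ f : ℚ[X], (∀ x : ℚ, f.eval x ≠ 0) → ∀ D : ℤ, OtherPoint f D ↔ ∃ x y : ℚ, (D : ℚ) * y ^ 2 = f.eval x := by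
    intro f hroot D
    constructor
    · rintro ⟨x, y, -, h⟩
      exact ⟨x, y, h⟩
    · rintro ⟨x, y, h⟩
      refine ⟨x, y, ?_, h⟩
      rintro rfl
      apply hroot x
      rw [← h]
      ring
  have hL : ∀ (f : ℚ[X]) (D : ℤ), LocallySoluble f D ↔ ((∃ x y : ℝ, (D : ℝ) * y ^ 2 = aeval x f) ∧
      ∀ (p : ℕ) [Fact p.Prime], ∃ x y : ℚ_[p], (D : ℚ_[p]) * y ^ 2 = aeval x f) := fun f D => Iff.rfl
  -- the rate
  have rate : ∀ f : ℚ[X], Squarefree f → Even f.natDegree → 6 ≤ f.natDegree → (∀ x : ℚ, f.eval x ≠ 0) → CondN f →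
      ∃ A δ : ℝ, 0 < δ ∧ ∀ N : ℕ, 2 ≤ N →
        count N (OtherPoint f) ≤ A / Real.log N ^ δ * count N (LocallySoluble f) := by
    intro f hf hdeg h6 hroot hN
    obtain ⟨A, δ, hδ, h1, -⟩ := even_input f hf hdeg h6 hroot hN
    refine ⟨A, δ, hδ, fun N hN => ?_⟩
    rw [count_congr N (hR f hroot), count_congr N (hL f)]
    exact h1 N hN
  -- (1)
  have main : ∀ f : ℚ[X], Squarefree f → (7 ≤ f.natDegree ∨ (f.natDegree = 6 ∧ CondK f ∧ CondH f ∧ CondN f)) →
      ∀ ε : ℝ, 0 < ε → ∃ N0 : ℕ, ∀ N : ℕ, N0 ≤ N → count N (OtherPoint f) ≤ ε * count N (LocallySoluble f) := by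
    intro f hf h ε hε
    by_cases hroot : ∀ x : ℚ, f.eval x ≠ 0
    · rcases Nat.even_or_odd f.natDegree with hdeg | hodd
      · rcases h with h7 | ⟨h6, -, -, hN⟩
        · have h8 : 8 ≤ f.natDegree := by
            rcases Nat.lt_or_ge f.natDegree 8 with h | h
            · have h1 : f.natDegree = 7 := by omega
              rw [h1] at hdeg
              exact absurd hdeg (by decide)
            · exact h
          obtain ⟨N0, hN0⟩ := QV.norat f hf hdeg h8 hroot ε hε
          refine ⟨N0, fun N hN => ?_⟩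
          rw [count_congr N (hR f hroot), count_congr N (hL f)]
          exact hN0 N hN
        · obtain ⟨A, δ, hδ, h1⟩ := rate f hf hdeg h6.ge hroot hN
          have h2 : Tendsto (fun N : ℕ => Real.log N ^ δ) atTop atTop :=
            (tendsto_rpow_atTop hδ).comp (Real.tendsto_log_atTop.comp tendsto_natCast_atTop_atTop)
          obtain ⟨N0, hN0⟩ := eventually_atTop.1 (h2.eventually_ge_atTop (|A| / ε))
          refine ⟨max N0 3, fun N hN => ?_⟩
          have hN3 : 3 ≤ N := (le_max_right _ _).trans hN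
          have hN3R : (1 : ℝ) < N := by exact_mod_cast (by omega : 1 < N)
          have h3 : |A| / ε ≤ Real.log N ^ δ := hN0 N ((le_max_left _ _).trans hN)
          have h4 : 0 < Real.log N ^ δ := Real.rpow_pos_of_pos (Real.log_pos hN3R) _
          refine (h1 N (by omega)).trans (mul_le_mul_of_nonneg_right ?_ (count_nonneg N _))
          rw [div_le_iff₀ h4]
          have h3' := (div_le_iff₀ hε).1 h3
          linarith [le_abs_self A]
      · rcases h with h7 | ⟨h6, -⟩
        · exact key2 f (fun D hD => QV.odd_loc f hodd D hD.ne_zero) (QV.all_V f hf h7) ε hε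
        · rw [h6] at hodd
          exact absurd hodd (by decide)
    · push Not at hroot
      obtain ⟨r, hr⟩ := hroot
      rcases h with h7 | ⟨h6, hK, hH, -⟩
      · exact key2 f (fun D _ => root_loc f r hr D) (QV.all_V f hf h7) ε hε
      · exact key2 f (fun D _ => root_loc f r hr D)
          (TR.all_o f hf (by rw [h6]; decide) h6.ge hK hH) ε hε
  intro f hf h
  have h6 : 6 ≤ f.natDegree := by
    rcases h with h | ⟨h, -⟩
    · omega
    · exact h.ge
  refine ⟨main f hf h, fun hdeg hroot hD => ?_, fun hdeg hroot hN => rate f hf hdeg h6 hroot hN⟩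
  obtain ⟨N1, hN1⟩ := main f hf h (1 / 2) (by norm_num)
  obtain ⟨c, η, N0, hc, hη, h3⟩ := QW.hasse_o f hf hdeg h6 hroot ⟨N1, fun N hN => by
    have h4 := hN1 N hN
    rw [count_congr N (hR f hroot), count_congr N (hL f)] at h4
    exact h4⟩ hD
  refine ⟨c, η, N0, hc, hη, fun N hN => ?_⟩
  rw [count_congr N fun D => and_congr (hL f D) (not_congr (hR f hroot D))]
  exact h3 N hN

end Pool.Agent.Results.MP_10e784_ag.QuadraticTwists
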